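import Mathlib

set_option autoImplicit false

namespace Pool.Agent.Y922.IZ

open Filter Topology

/-- A common analytic inverse near the image of a compact set. -/
def S_INV : Prop := ∀ (F : ℂ → ℂ) (K : Set ℂ), IsCompact K → (∀ s ∈ K, AnalyticAt ℂ F s) → Set.InjOn F K →
  (∀ s ∈ K, deriv F s ≠ 0) → ∃ G : ℂ → ℂ, ∀ s ∈ K, AnalyticAt ℂ G (F s) ∧ ∀ᶠ z in 𝓝 s, G (F z) = z

end Pool.Agent.Y922.IZ
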