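import Pool.Agent.Y922.ZF.Inst
import Pool.Agent.Y922.IZ.Stm

set_option autoImplicit false

open Filter Topology

namespace Pool.Agent.Y922.IZ

open Pool.Agent.Y922.ZF

/-- transfer of the local independence to the inverse function -/
theorem loc_dual {σ : Type} (f : Option σ → ℂ → ℂ) (s₀ : ℂ) (G : ℂ → ℂ) (hf : Y124.LocInd f s₀)
    (hc : ContinuousAt (f none) s₀) (hG : ∀ᶠ z in 𝓝 s₀, G (f none z) = z) :
    Y124.LocInd (fun (y : Option σ) c => y.elim (G c) fun x => f (some x) (G c)) (f none s₀) := by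
  classical
  intro P hP
  let e : Option (Option σ) → Option (Option σ) := fun o =>
    match o with
    | none => some none
    | some none => none
    | some (some y) => some (some y)
  have he : Function.Injective e := by
    intro x y hxy
    rcases x with _ | (_ | x) <;> rcases y with _ | (_ | y) <;> simp_all [e]
  have h1 : ∀ᶠ z in 𝓝 s₀, MvPolynomial.eval (fun o : Option (Option σ) => o.elim z fun y => f y z)
      (MvPolynomial.rename e P) = 0 := by
    filter_upwards [hc.eventually hP, hG] with z hz1 hz2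
    rw [MvPolynomial.eval_rename]
    rw [← hz1]
    congr 2
    funext o
    rcases o with _ | (_ | y)
    · rfl
    · simp only [Function.comp, e, Option.elim]
      exact hz2.symm
    · simp only [Function.comp, e, Option.elim]
      rw [hz2]
  have h2 := hf _ h1
  exact MvPolynomial.rename_injective e he (by rw [h2, map_zero])

/-- the values at `s` -/
noncomputable def vS {h r : ℕ} (β : Fin h → ℝ) (a : Fin r → ℝ) (w : ℕ) (s : ℂ) :
    Fin h ⊕ (Unit ⊕ (Fin w ⊕ (Fin w ⊕ (Fin r × Fin w)))) → ℂ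
  | Sum.inl l => (β l : ℂ) ^ s
  | Sum.inr (Sum.inl _) => Complex.Gamma s
  | Sum.inr (Sum.inr (Sum.inl k)) => iteratedDeriv k Complex.digamma s
  | Sum.inr (Sum.inr (Sum.inr (Sum.inl k))) => iteratedDeriv (k + 1) riemannZeta s
  | Sum.inr (Sum.inr (Sum.inr (Sum.inr x))) => iteratedDeriv x.2 riemannZeta (s + a x.1)

/-- the values and zeta -/
noncomputable def fS {h r : ℕ} (β : Fin h → ℝ) (a : Fin r → ℝ) (w : ℕ)
    (y : Option (Fin h ⊕ (Unit ⊕ (Fin w ⊕ (Fin w ⊕ (Fin r × Fin w)))))) (s : ℂ) : ℂ :=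
  y.elim (riemannZeta s) fun x => vS β a w s x

/-- the regular points -/
def Reg {r : ℕ} (a : Fin r → ℝ) : Set ℂ := {s | s ≠ 1 ∧ (∀ m : ℕ, s ≠ -m) ∧ ∀ i, s + a i ≠ 1}

theorem fS_analytic {h r : ℕ} (β : Fin h → ℝ) (hβ0 : ∀ l, 0 < β l) (a : Fin r → ℝ) (w : ℕ)
    (y : Option (Fin h ⊕ (Unit ⊕ (Fin w ⊕ (Fin w ⊕ (Fin r × Fin w)))))) (z : ℂ) (hz : z ∈ Reg a) :
    AnalyticAt ℂ (fS β a w y) z := by
  have hzeta : ∀ (k : ℕ) (b : ℂ), z + b ≠ 1 → AnalyticAt ℂ (fun s => iteratedDeriv k riemannZeta (s + b)) z := by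
    intro k b hb
    have h1 := L_analytic 1 (1 : DirichletCharacter ℂ 1) k b z (Or.inl hb)
    rw [DirichletCharacter.LFunction_modOne_eq] at h1
    exact h1
  have hzeta0 : ∀ k : ℕ, AnalyticAt ℂ (fun s => iteratedDeriv k riemannZeta s) z := by
    intro k
    have h1 := hzeta k 0 (by rw [add_zero]; exact hz.1)
    simp only [add_zero] at h1
    exact h1
  rcases y with _ | (l | (_ | (k | (k | x))))
  · have h1 := hzeta0 0
    simp only [iteratedDeriv_zero] at h1
    exact h1
  · exact pow_analytic (β l) (hβ0 l) z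
  · exact gamma_analytic hz.2.1
  · exact iter_analytic (digamma_analytic hz.2.1) k
  · exact hzeta0 (k + 1)
  · exact hzeta x.2 (a x.1) (hz.2.2 x.1)

theorem fS_ind {h r : ℕ} (β : Fin h → ℝ) (hβ0 : ∀ l, 0 < β l)
    (hβ : ∀ v : Fin h → ℤ, (∃ x : ℚ, ∏ l, β l ^ v l = x) → v = 0) (a : Fin r → ℝ) (ha : Function.Injective a)
    (ha0 : ∀ i, a i ≠ 0) (w : ℕ) (t : ℂ) (ht : t ∈ Reg a) : Y124.LocInd (fS β a w) t := by
  have hReg : Reg a = ({z : ℂ | ∃ m : ℕ, z = -m} ∪ ({1} ∪ Set.range fun i => (1 : ℂ) - (a i : ℂ)))ᶜ := by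
    ext z
    simp only [Reg, Set.mem_setOf_eq, Set.mem_compl_iff, Set.mem_union, Set.mem_singleton_iff, Set.mem_range, not_or,
      not_exists]
    constructor
    · rintro ⟨h1, h2, h3⟩
      refine ⟨h2, h1, fun i hi => h3 i ?_⟩
      rw [← hi]; ring
    · rintro ⟨h1, h2, h3⟩
      refine ⟨h2, h1, fun i hi => h3 i ?_⟩
      rw [← hi]; ring
  refine locInd_gen h 1 (r + 1) w (w + 1) β hβ0 hβ (Fin.cons 0 a : Fin (r + 1) → ℝ) ?_ (fS β a w)
    (fun y => match y with
      | none => Sum.inr (Sum.inr (Sum.inr (1, 0, 0)))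
      | some (Sum.inl l) => Sum.inl l
      | some (Sum.inr (Sum.inl x)) => Sum.inr (Sum.inl x)
      | some (Sum.inr (Sum.inr (Sum.inl k))) => Sum.inr (Sum.inr (Sum.inl k))
      | some (Sum.inr (Sum.inr (Sum.inr (Sum.inl k)))) => Sum.inr (Sum.inr (Sum.inr (1, 0, k.succ)))
      | some (Sum.inr (Sum.inr (Sum.inr (Sum.inr x)))) => Sum.inr (Sum.inr (Sum.inr (1, x.1.succ, x.2.castSucc))))
    ?_ ?_ (Reg a) (by rw [hReg]; exact pre_of_countable (countable_negnat.union ((Set.countable_singleton 1).union (Set.countable_range _)))) ?_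
    (fun i z hz => fS_analytic β hβ0 a w i z hz) t ht
  · intro x y hxy
    refine Fin.cases ?_ (fun x' => ?_) x hxy
    · intro hxy
      refine Fin.cases (fun _ => rfl) (fun y' h => ?_) y hxy
      rw [Fin.cons_zero, Fin.cons_succ] at h
      exact absurd h.symm (ha0 y')
    · intro hxy
      refine Fin.cases (fun h => ?_) (fun y' h => ?_) y hxy
      · rw [Fin.cons_zero, Fin.cons_succ] at h
        exact absurd h (ha0 x')
      · rw [Fin.cons_succ, Fin.cons_succ] at h
        rw [ha h]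
  · intro x y hxy
    rcases x with _ | (x | (x | (x | (x | ⟨x, x'⟩)))) <;> rcases y with _ | (y | (y | (y | (y | ⟨y, y'⟩)))) <;>
      simp_all [Fin.succ_ne_zero, (Fin.succ_ne_zero _).symm]
  · intro y s
    rcases y with _ | (l | (x | (k | (k | x))))
    · simp only [fS, Option.elim, FF]
      rw [DirichletCharacter.LFunction_modOne_eq, Fin.cons_zero, Complex.ofReal_zero, add_zero]
      simp
    · rfl
    · rfl
    · rfl
    · simp only [fS, Option.elim, FF, vS]
      rw [DirichletCharacter.LFunction_modOne_eq, Fin.cons_zero, Complex.ofReal_zero, add_zero, Fin.val_succ]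
    · simp only [fS, Option.elim, FF, vS]
      rw [DirichletCharacter.LFunction_modOne_eq, Fin.cons_succ, Fin.val_castSucc]
  · filter_upwards [eventually_gt_atTop (∑ i, |a i| + 1)] with s hs
    have h0 : 0 ≤ ∑ i, |a i| := Finset.sum_nonneg fun i _ => abs_nonneg _
    refine ⟨fun h1 => ?_, fun m hm => ?_, fun i h1 => ?_⟩
    · have := congrArg Complex.re h1
      simp only [Complex.ofReal_re, Complex.one_re] at this
      linarith
    · have := congrArg Complex.re hm
      simp only [Complex.ofReal_re, Complex.neg_re, Complex.natCast_re] at this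
      have h2 : (0 : ℝ) ≤ m := Nat.cast_nonneg m
      linarith
    · have h2 := congrArg Complex.re h1
      simp only [Complex.add_re, Complex.ofReal_re, Complex.one_re] at h2
      have h3 := Finset.single_le_sum (f := fun i => |a i|) (fun i _ => abs_nonneg (a i)) (Finset.mem_univ i)
      have h4 := neg_abs_le (a i)
      linarith

/-- the dual values -/
theorem oneI (g : ℕ) {h r : ℕ} (β : Fin h → ℝ) (hβ0 : ∀ l, 0 < β l)
    (hβ : ∀ v : Fin h → ℤ, (∃ x : ℚ, ∏ l, β l ^ v l = x) → v = 0) (a : Fin r → ℝ) (ha : Function.Injective a)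
    (ha0 : ∀ i, a i ≠ 0) (w : ℕ) (K : Set ℂ) (hK : IsCompact K) (hKR : K ⊆ Reg a) (G : ℂ → ℂ)
    (hG : ∀ s ∈ K, AnalyticAt ℂ G (riemannZeta s) ∧ ∀ᶠ z in 𝓝 s, G (riemannZeta z) = z) :
    Y124.OneV g (fun R T => {t | t ∈ riemannZeta '' K ∧ Y120.Pt R T t})
      (fun c (y : Option (Fin h ⊕ (Unit ⊕ (Fin w ⊕ (Fin w ⊕ (Fin r × Fin w)))))) =>
        y.elim (G c) fun x => vS β a w (G c) x) := by
  classical
  have hz : ∀ s ∈ K, AnalyticAt ℂ riemannZeta s := fun s hs => fS_analytic β hβ0 a w none s (hKR hs)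
  have hc : IsCompact (riemannZeta '' K) :=
    hK.image_of_continuousOn fun s hs => (hz s hs).continuousAt.continuousWithinAt
  refine Y124.oneV_of g (fun (y : Option (Fin h ⊕ (Unit ⊕ (Fin w ⊕ (Fin w ⊕ (Fin r × Fin w)))))) c =>
    y.elim (G c) fun x => vS β a w (G c) x) _ hc ?_ ?_
  · rintro y _ ⟨s, hs, rfl⟩
    obtain ⟨h1, h2⟩ := hG s hs
    have h3 : G (riemannZeta s) = s := h2.self_of_nhds
    rcases y with _ | x
    · exact h1
    · have h4 := fS_analytic β hβ0 a w (some x) s (hKR hs)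
      rw [← h3] at h4
      exact AnalyticAt.comp h4 h1
  · rintro _ ⟨s, hs, rfl⟩
    obtain ⟨h1, h2⟩ := hG s hs
    exact loc_dual (fS β a w) s G (fS_ind β hβ0 hβ a ha ha0 w s (hKR hs)) (hz s hs).continuousAt h2

end Pool.Agent.Y922.IZ
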