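import Pool.Agent.Y922.IZ.Dual

set_option autoImplicit false

open Filter Topology

namespace Pool.Agent.Y922.IZ

open Pool.Agent.Y922.ZF

/-- the regular points -/
def RegG {r : ℕ} (a : Fin r → ℝ) : Set ℂ := {s | (∀ m : ℕ, s ≠ -m) ∧ ∀ i, s + a i ≠ 1}

theorem FF_analytic (h q r w v : ℕ) [NeZero q] (β : Fin h → ℝ) (hβ0 : ∀ l, 0 < β l) (a : Fin r → ℝ)
    (y : Idx h q r w v) (z : ℂ) (hz : z ∈ RegG a) : AnalyticAt ℂ (FF h q r w v β a y) z := by
  rcases y with l | (_ | (k | x))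
  · exact pow_analytic (β l) (hβ0 l) z
  · exact gamma_analytic hz.1
  · exact iter_analytic (digamma_analytic hz.1) k
  · exact L_analytic q x.1 x.2.2 (a x.2.1) z (Or.inl (hz.2 x.2.1))

theorem RegG_eq {r : ℕ} (a : Fin r → ℝ) :
    RegG a = ({z : ℂ | ∃ m : ℕ, z = -m} ∪ Set.range fun i => (1 : ℂ) - (a i : ℂ))ᶜ := by
  ext z
  simp only [RegG, Set.mem_setOf_eq, Set.mem_compl_iff, Set.mem_union, Set.mem_range, not_or, not_exists]
  constructor
  · rintro ⟨h2, h3⟩
    refine ⟨h2, fun i hi => h3 i ?_⟩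
    rw [← hi]; ring
  · rintro ⟨h2, h3⟩
    refine ⟨h2, fun i hi => h3 i ?_⟩
    rw [← hi]; ring

theorem RegG_large {r : ℕ} (a : Fin r → ℝ) : ∀ᶠ s : ℝ in atTop, (s : ℂ) ∈ RegG a := by
  filter_upwards [eventually_gt_atTop (∑ i, |a i| + 1)] with s hs
  have h0 : 0 ≤ ∑ i, |a i| := Finset.sum_nonneg fun i _ => abs_nonneg _
  refine ⟨fun m hm => ?_, fun i h1 => ?_⟩
  · have := congrArg Complex.re hm
    simp only [Complex.ofReal_re, Complex.neg_re, Complex.natCast_re] at this
    have h2 : (0 : ℝ) ≤ m := Nat.cast_nonneg m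
    linarith
  · have h2 := congrArg Complex.re h1
    simp only [Complex.add_re, Complex.ofReal_re, Complex.one_re] at h2
    have h3 := Finset.single_le_sum (f := fun i => |a i|) (fun i _ => abs_nonneg (a i)) (Finset.mem_univ i)
    have h4 := neg_abs_le (a i)
    linarith

/-- the dual values, the algebraic coordinate being any member of the family -/
theorem oneG (g : ℕ) (h q r w v : ℕ) [NeZero q] (β : Fin h → ℝ) (hβ0 : ∀ l, 0 < β l)
    (hβ : ∀ v : Fin h → ℤ, (∃ x : ℚ, ∏ l, β l ^ v l = x) → v = 0) (a : Fin r → ℝ) (ha : Function.Injective a)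
    (y₀ : Idx h q r w v) {σ : Type} [Fintype σ] [DecidableEq σ] (e : σ → Idx h q r w v) (he : Function.Injective e)
    (hey : ∀ x, e x ≠ y₀) (K : Set ℂ) (hK : IsCompact K) (hKR : K ⊆ RegG a) (G : ℂ → ℂ)
    (hG : ∀ s ∈ K, AnalyticAt ℂ G (FF h q r w v β a y₀ s) ∧ ∀ᶠ z in 𝓝 s, G (FF h q r w v β a y₀ z) = z) :
    Y124.OneV g (fun R T => {t | t ∈ FF h q r w v β a y₀ '' K ∧ Y120.Pt R T t})
      (fun c (y : Option σ) => y.elim (G c) fun x => FF h q r w v β a (e x) (G c)) := by
  classical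
  have hz : ∀ s ∈ K, AnalyticAt ℂ (FF h q r w v β a y₀) s := fun s hs => FF_analytic h q r w v β hβ0 a y₀ s (hKR hs)
  have hc : IsCompact (FF h q r w v β a y₀ '' K) :=
    hK.image_of_continuousOn fun s hs => (hz s hs).continuousAt.continuousWithinAt
  refine Y124.oneV_of g (fun (y : Option σ) c => y.elim (G c) fun x => FF h q r w v β a (e x) (G c)) _ hc ?_ ?_
  · rintro y _ ⟨s, hs, rfl⟩
    obtain ⟨h1, h2⟩ := hG s hs
    have h3 : G (FF h q r w v β a y₀ s) = s := h2.self_of_nhds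
    rcases y with _ | x
    · exact h1
    · have h4 := FF_analytic h q r w v β hβ0 a (e x) s (hKR hs)
      rw [← h3] at h4
      exact AnalyticAt.comp h4 h1
  · rintro _ ⟨s, hs, rfl⟩
    obtain ⟨h1, h2⟩ := hG s hs
    refine loc_dual (fun y : Option σ => FF h q r w v β a (y.elim y₀ e)) s G ?_ (hz s hs).continuousAt h2
    refine locInd_gen h q r w v β hβ0 hβ a ha _ (fun y : Option σ => y.elim y₀ e) ?_ (fun y s => rfl) (RegG a) ?_
      (RegG_large a) (fun y z hz => FF_analytic h q r w v β hβ0 a _ z hz) s (hKR hs)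
    · intro x y hxy
      rcases x with _ | x <;> rcases y with _ | y
      · rfl
      · exact absurd hxy.symm (hey y)
      · exact absurd hxy (hey x)
      · rw [he hxy]
    · rw [RegG_eq]
      exact pre_of_countable (countable_negnat.union (Set.countable_range _))

end Pool.Agent.Y922.IZ
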